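import Pool.Agent.Lib_helper96.MET.PIN2

set_option autoImplicit false

namespace Pool.Agent.MET

open PIN2aux

theorem r6c_aux {c : MCode} (D : PinData c) (v : Fin (c.1 + 3) → ℤ) (h : ∀ (w : Fin (c.1 + 3) → ℤ)
    (m : Mp c), (xp v : L (c.1 + 3)) • ((xp w : L (c.1 + 3)) • m - m) = (xp w : L (c.1 + 3)) • m - m) :
    v = 0 := by
  obtain ⟨e, a, b, u, rfl⟩ := fr3_dec v
  have hz : ∀ (g : Mp c), x3 1 0 0 (0 : Fin c.1 → ℤ) • g = 2 • g →
      x3 e a b u • g = g := by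
    intro g hg
    have h1 := h (fr3 1 0 0 0) g
    rw [x3] at hg ⊢
    rw [hg, two_smul, add_sub_cancel_right] at h1
    exact h1
  have h2 := congrArg D.thR (hz _ D.rho_z)
  rw [D.thR_smul, D.thR_gen, mul_one, AddMonoidAlgebra.one_def] at h2
  obtain ⟨h3, -⟩ := single_cases (by norm_num) h2
  have h4 := congrArg D.thT (hz _ D.tau_z)
  rw [D.thT_smul, D.thT_gen, mul_one] at h4
  obtain ⟨h5, h6, h7⟩ := uf h4
  rw [h3, h5, h6, h7, fr3_zero]

/-- R6c (from PIN0) -/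
theorem r6c_of (pin0 : ∀ c : MCode, Nonempty (PinData c)) (c : MCode) (v : Fin (c.1 + 3) → ℤ)
    (h : ∀ (w : Fin (c.1 + 3) → ℤ)
    (m : PM (c.1 + 3) (c.2.1 + 2) (pin c).2.2), xp v • (xp w • m - m) = xp w • m - m) : v = 0 := by
  obtain ⟨D⟩ := pin0 c
  exact r6c_aux D v h

end Pool.Agent.MET
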