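import Pool.Agent.Lib_helper53.MET.Defs2

set_option autoImplicit false

namespace Pool.Agent.MET

namespace PIN2aux

theorem fr3_dec {k : ℕ} (w : Fin (k + 3) → ℤ) : ∃ (e a b : ℤ) (u : Fin k → ℤ), w = fr3 e a b u := by
  refine ⟨w 0, w 1, w 2, fun i => w i.succ.succ.succ, ?_⟩
  funext i
  refine Fin.cases rfl (fun i => ?_) i
  refine Fin.cases rfl (fun i => ?_) i
  refine Fin.cases rfl (fun i => ?_) i
  rfl

theorem fr3_inj {k : ℕ} {e a b e' a' b' : ℤ} {u u' : Fin k → ℤ} (h : fr3 e a b u = fr3 e' a' b' u') :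
    e = e' ∧ a = a' ∧ b = b' ∧ u = u' :=
  ⟨congrFun h 0, congrFun h 1, congrFun h 2, funext fun i => congrFun h i.succ.succ.succ⟩

theorem fr3_add {k : ℕ} (e a b e' a' b' : ℤ) (u u' : Fin k → ℤ) :
    fr3 e a b u + fr3 e' a' b' u' = fr3 (e + e') (a + a') (b + b') (u + u') := by
  funext i
  refine Fin.cases rfl (fun i => ?_) i
  refine Fin.cases rfl (fun i => ?_) i
  refine Fin.cases rfl (fun i => ?_) i
  rfl

theorem fr3_zsmul {k : ℕ} (n e a b : ℤ) (u : Fin k → ℤ) :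
    n • fr3 e a b u = fr3 (n * e) (n * a) (n * b) (n • u) := by
  funext i
  refine Fin.cases rfl (fun i => ?_) i
  refine Fin.cases rfl (fun i => ?_) i
  refine Fin.cases rfl (fun i => ?_) i
  rfl

theorem fr3_zero {k : ℕ} : fr3 0 0 0 (0 : Fin k → ℤ) = 0 := by
  funext i
  refine Fin.cases rfl (fun i => ?_) i
  refine Fin.cases rfl (fun i => ?_) i
  refine Fin.cases rfl (fun i => ?_) i
  rfl

theorem val_eq (p : ℕ) (hp : p.Prime) (q r : ℕ) (hq : q.Prime) (hr : r.Prime) (h1 : p ≠ q) (h2 : p ≠ r)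
    (a b c : ℤ) (h : (p : ℚ) ^ a * (q : ℚ) ^ b * (r : ℚ) ^ c = 1) : a = 0 := by
  have := Fact.mk hp
  have hp0 : (p : ℚ) ≠ 0 := by exact_mod_cast hp.ne_zero
  have hq0 : (q : ℚ) ≠ 0 := by exact_mod_cast hq.ne_zero
  have hr0 : (r : ℚ) ≠ 0 := by exact_mod_cast hr.ne_zero
  have vq : padicValRat p (q : ℚ) = 0 := by
    rw [padicValRat.of_nat, padicValNat.eq_zero_of_not_dvd, Nat.cast_zero]
    intro hd
    exact h1 ((Nat.prime_dvd_prime_iff_eq hp hq).mp hd)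
  have vr : padicValRat p (r : ℚ) = 0 := by
    rw [padicValRat.of_nat, padicValNat.eq_zero_of_not_dvd, Nat.cast_zero]
    intro hd
    exact h2 ((Nat.prime_dvd_prime_iff_eq hp hr).mp hd)
  have vp : padicValRat p (p : ℚ) = 1 := padicValRat.self hp.one_lt
  have h3 := congrArg (padicValRat p) h
  rw [padicValRat.mul (mul_ne_zero (zpow_ne_zero _ hp0) (zpow_ne_zero _ hq0)) (zpow_ne_zero _ hr0),
    padicValRat.mul (zpow_ne_zero _ hp0) (zpow_ne_zero _ hq0), padicValRat.zpow,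
    padicValRat.zpow, padicValRat.zpow, vp, vq, vr, padicValRat.one] at h3
  linarith

theorem uf {a b c : ℤ} (h : (2 : ℚ) ^ a * 5 ^ b * 7 ^ c = 1) : a = 0 ∧ b = 0 ∧ c = 0 := by
  refine ⟨?_, ?_, ?_⟩
  · exact val_eq 2 (by norm_num) 5 7 (by norm_num) (by norm_num) (by norm_num) (by norm_num) a b c
      (by exact_mod_cast h)
  · exact val_eq 5 (by norm_num) 2 7 (by norm_num) (by norm_num) (by norm_num) (by norm_num) b a c
      (by
        rw [← h]
        push_cast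
        ring)
  · exact val_eq 7 (by norm_num) 2 5 (by norm_num) (by norm_num) (by norm_num) (by norm_num) c a b
      (by
        rw [← h]
        push_cast
        ring)

theorem pm_one {ε : ℤ} (h : ε = 1 ∨ ε = -1) {x : ℚ} (hx : 0 < x) {y : ℚ} (hy : 0 < y)
    (he : (ε : ℚ) * x = y) : ε = 1 ∧ x = y := by
  rcases h with rfl | rfl
  · simpa using he
  · push_cast at he
    linarith

theorem chi_pos (a b c : ℤ) : (0 : ℚ) < 2 ^ a * 5 ^ b * 7 ^ c := by positivity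

/-- `±2^a 5^b 7^c = 2^a' 5^b' 7^c'` -/
theorem uf' {ε a b c a' b' c' : ℤ} (h : ε = 1 ∨ ε = -1)
    (he : (ε : ℚ) * (2 ^ a * 5 ^ b * 7 ^ c) = 2 ^ a' * 5 ^ b' * 7 ^ c') :
    ε = 1 ∧ a = a' ∧ b = b' ∧ c = c' := by
  obtain ⟨h1, h2⟩ := pm_one h (chi_pos a b c) (chi_pos a' b' c') he
  have h3 : (2 : ℚ) ^ (a - a') * 5 ^ (b - b') * 7 ^ (c - c') = 1 := by
    rw [zpow_sub₀ (by norm_num), zpow_sub₀ (by norm_num), zpow_sub₀ (by norm_num)]
    have := (chi_pos a' b' c').ne'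
    field_simp
    linarith
  obtain ⟨h4, h5, h6⟩ := uf h3
  exact ⟨h1, by omega, by omega, by omega⟩

theorem single_cases {k : ℕ} {d : Fin k → ℤ} {r s : ℚ} (hs : s ≠ 0)
    (h : (AddMonoidAlgebra.single d r : AddMonoidAlgebra ℚ (Fin k → ℤ)) = AddMonoidAlgebra.single 0 s) :
    d = 0 ∧ r = s := by
  have h1 := AddMonoidAlgebra.single_inj.mp h
  rcases h1 with ⟨h1, h2⟩ | ⟨h1, h2⟩
  · exact ⟨h1, h2⟩
  · exact absurd h2 hs

/-- `Z² = 3 Z - 2` for `Z = r x^d`, `r ≠ 0` -/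
theorem quad_single {k : ℕ} {d : Fin k → ℤ} {r : ℚ} (_hr : r ≠ 0)
    (h : (AddMonoidAlgebra.single (d + d) (r * r) : AddMonoidAlgebra ℚ (Fin k → ℤ)) =
      AddMonoidAlgebra.single d (3 * r) - AddMonoidAlgebra.single 0 2) :
    d = 0 ∧ (r = 1 ∨ r = 2) := by
  classical
  have hd : d = 0 := by
    by_contra hd
    have h1 := DFunLike.congr_fun (congrArg AddMonoidAlgebra.coeff h) (0 : Fin k → ℤ)
    have hdd : d + d ≠ 0 := by
      intro h2
      apply hd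
      funext i
      have := congrFun h2 i
      simp only [Pi.add_apply, Pi.zero_apply] at this ⊢
      omega
    simp [hd, hdd] at h1
  refine ⟨hd, ?_⟩
  subst hd
  have h1 := DFunLike.congr_fun (congrArg AddMonoidAlgebra.coeff h) (0 : Fin k → ℤ)
  simp at h1
  have h2 : (r - 1) * (r - 2) = 0 := by linarith
  rcases mul_eq_zero.mp h2 with h3 | h3
  · left; linarith
  · right; linarith

end PIN2aux

open PIN2aux

theorem pin2_aux {c c' : MCode} (D : PinData c) (D' : PinData c')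
    (σ : (Fin (c.1 + 3) → ℤ) ≃+ (Fin (c'.1 + 3) → ℤ)) (ε : (Fin (c.1 + 3) → ℤ) → ℤ)
    (φ : Mp c ≃+ Mp c') (h1 : ∀ v, ε v = 1 ∨ ε v = -1) (h2 : ∀ v w, ε (v + w) = ε v * ε w)
    (h3 : ∀ v m, φ ((xp v : L (c.1 + 3)) • m) = ε v • (xp (σ v) : L (c'.1 + 3)) • φ m) :
    FrIso (c, c') := by
  classical
  -- the rational valued maps after `φ`
  have hR : ∀ (v : Fin (c.1 + 3) → ℤ) (e a b : ℤ) (u : Fin c'.1 → ℤ), σ v = fr3 e a b u →
      ∀ m : Mp c, D'.thR (φ ((xp v : L (c.1 + 3)) • m)) =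
        AddMonoidAlgebra.single u ((ε v : ℚ) * 2 ^ e) * D'.thR (φ m) := by
    intro v e a b u hv m
    rw [h3, hv, map_zsmul]
    have := D'.thR_smul e a b u (φ m)
    rw [x3] at this
    rw [this, ← smul_mul_assoc]
    congr 1
    rw [AddMonoidAlgebra.smul_single, zsmul_eq_mul]
  have hT : ∀ (v : Fin (c.1 + 3) → ℤ) (e a b : ℤ) (u : Fin c'.1 → ℤ), σ v = fr3 e a b u →
      ∀ m : Mp c, D'.thT (φ ((xp v : L (c.1 + 3)) • m)) =
        (ε v : ℚ) * (2 ^ e * 5 ^ a * 7 ^ b) * D'.thT (φ m) := by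
    intro v e a b u hv m
    rw [h3, hv, map_zsmul]
    have := D'.thT_smul e a b u (φ m)
    rw [x3] at this
    rw [this, zsmul_eq_mul, ← mul_assoc]
  -- the image of `z`
  have hz : σ (fr3 1 0 0 0) = fr3 1 0 0 0 ∧ ε (fr3 1 0 0 0) = 1 := by
    obtain ⟨e, a, b, u, hv⟩ := fr3_dec (σ (fr3 1 0 0 0))
    have hq : ∀ m : Mp c, φ ((xp (fr3 1 0 0 0) : L (c.1 + 3)) • ((xp (fr3 1 0 0 0) : L (c.1 + 3)) • m)) =
        3 • φ ((xp (fr3 1 0 0 0) : L (c.1 + 3)) • m) - 2 • φ m := by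
      intro m
      have := D.quad m
      rw [x3] at this
      rw [this, map_sub, map_nsmul, map_nsmul]
    have hr0 : (ε (fr3 1 0 0 0) : ℚ) ≠ 0 := by
      rcases h1 (fr3 1 0 0 0) with h | h <;> rw [h] <;> norm_num
    have hρ : ∃ m : Mp c, φ m = gen 0 := φ.surjective _
    obtain ⟨m, hm⟩ := hρ
    have e1 := congrArg D'.thR (hq m)
    rw [hR _ _ _ _ _ hv, hR _ _ _ _ _ hv, map_sub, map_nsmul, map_nsmul, hR _ _ _ _ _ hv, hm,
      D'.thR_gen, mul_one, AddMonoidAlgebra.single_mul_single] at e1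
    obtain ⟨hu, hr⟩ := quad_single (d := u) (r := (ε (fr3 1 0 0 0) : ℚ) * 2 ^ e)
      (mul_ne_zero hr0 (zpow_ne_zero _ (by norm_num))) (by
        rw [e1]
        congr 1
        · rw [AddMonoidAlgebra.smul_single, nsmul_eq_mul]
          push_cast
          rfl
        · rw [AddMonoidAlgebra.one_def, AddMonoidAlgebra.smul_single, nsmul_eq_mul]
          push_cast
          rw [mul_one])
    have hτ : ∃ m : Mp c, φ m = gen 1 := φ.surjective _
    obtain ⟨t, ht⟩ := hτ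
    have e2 := congrArg D'.thT (hq t)
    rw [hT _ _ _ _ _ hv, hT _ _ _ _ _ hv, map_sub, map_nsmul, map_nsmul, hT _ _ _ _ _ hv, ht,
      D'.thT_gen, mul_one] at e2
    have e3 : ((ε (fr3 1 0 0 0) : ℚ) * (2 ^ e * 5 ^ a * 7 ^ b) - 1) *
        ((ε (fr3 1 0 0 0) : ℚ) * (2 ^ e * 5 ^ a * 7 ^ b) - 2) = 0 := by
      simp only [nsmul_eq_mul] at e2
      push_cast at e2
      linarith
    have e4 : ε (fr3 1 0 0 0) = 1 ∧ a = 0 ∧ b = 0 ∧ (e = 0 ∨ e = 1) := by
      rcases mul_eq_zero.mp e3 with h | h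
      · obtain ⟨i1, i2, i3, i4⟩ := uf' (a' := 0) (b' := 0) (c' := 0) (h1 _) (by
          rw [sub_eq_zero.mp h]; norm_num)
        exact ⟨i1, i3, i4, Or.inl i2⟩
      · obtain ⟨i1, i2, i3, i4⟩ := uf' (a' := 1) (b' := 0) (c' := 0) (h1 _) (by
          rw [sub_eq_zero.mp h]; norm_num)
        exact ⟨i1, i3, i4, Or.inr i2⟩
    obtain ⟨i1, i2, i3, i4⟩ := e4
    refine ⟨?_, i1⟩
    subst i2 i3 hu
    rcases i4 with rfl | rfl
    · exfalso
      rw [fr3_zero] at hv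
      have h5 := σ.injective (hv.trans (map_zero σ).symm)
      have h6 := congrFun h5 0
      simp [fr3] at h6
    · exact hv
  -- τ
  have kerz : ∀ m : Mp c, x3 1 0 0 (0 : Fin c.1 → ℤ) • m = 2 • m →
      x3 1 0 0 (0 : Fin c'.1 → ℤ) • φ m = 2 • φ m := by
    intro m hm
    have h5 := h3 (fr3 1 0 0 0) m
    rw [hz.1, hz.2, one_smul] at h5
    rw [x3] at hm ⊢
    rw [← h5, hm, map_nsmul]
  have hε : ∀ v, (ε v : ℚ) ≠ 0 := by
    intro v
    rcases h1 v with h | h <;> rw [h] <;> norm_num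
  have nz : ∀ m : Mp c, m ≠ 0 → x3 1 0 0 (0 : Fin c.1 → ℤ) • m = 2 • m →
      D'.thR (φ m) ≠ 0 ∨ D'.thT (φ m) ≠ 0 := by
    intro m hm hk
    by_contra hh
    push Not at hh
    have := D'.joint (φ m) (kerz m hk) hh.1 hh.2
    exact hm (by simpa using this)
  have τ0 : (gen 1 : Mp c) ≠ 0 := by
    intro h
    have := D.thT_gen
    rw [h, map_zero] at this
    exact zero_ne_one this
  have ρ0 : (gen 0 : Mp c) ≠ 0 := by
    intro h
    have := D.thR_gen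
    rw [h, map_zero] at this
    exact zero_ne_one this
  have τT : D'.thT (φ (gen 1)) ≠ 0 := by
    rcases nz _ τ0 D.tau_z with h | h
    · exfalso
      obtain ⟨e, a, b, u, hv⟩ := fr3_dec (σ (fr3 0 1 0 0))
      have h5 := congrArg (fun m => D'.thR (φ m)) D.tau_y
      rw [x3] at h5
      rw [hR _ _ _ _ _ hv, map_nsmul, map_nsmul, ← smul_one_mul (5 : ℕ) (D'.thR (φ (gen 1)))] at h5
      have h6 := mul_right_cancel₀ h h5
      rw [AddMonoidAlgebra.one_def, AddMonoidAlgebra.smul_single, nsmul_eq_mul] at h6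
      obtain ⟨-, h7⟩ := single_cases (by norm_num) h6
      obtain ⟨-, h8, h9, -⟩ := uf' (ε := ε (fr3 0 1 0 0)) (a := e) (b := 0) (c := 0) (a' := 0) (b' := 1) (c' := 0)
        (h1 _) (by
          rw [zpow_zero, mul_one, zpow_zero, mul_one, h7]
          norm_num)
      omega
    · exact h
  have hχ : ∀ (v : Fin (c.1 + 3) → ℤ) (e a b : ℤ) (u : Fin c'.1 → ℤ), σ v = fr3 e a b u →
      ∀ N : ℕ, (xp v : L (c.1 + 3)) • (gen 1 : Mp c) = N • gen 1 →
        (ε v : ℚ) * (2 ^ e * 5 ^ a * 7 ^ b) = N := by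
    intro v e a b u hv N hN
    have h5 := congrArg (fun m => D'.thT (φ m)) hN
    beta_reduce at h5
    rw [hT _ _ _ _ _ hv, map_nsmul, map_nsmul, nsmul_eq_mul] at h5
    exact mul_right_cancel₀ τT h5
  obtain ⟨y1e, y1⟩ : ε (fr3 0 1 0 0) = 1 ∧ ∃ u, σ (fr3 0 1 0 0) = fr3 0 1 0 u := by
    obtain ⟨e, a, b, u, hv⟩ := fr3_dec (σ (fr3 0 1 0 0))
    obtain ⟨i1, i2, i3, i4⟩ := uf' (a' := 0) (b' := 1) (c' := 0) (h1 _)
      ((hχ _ _ _ _ _ hv 5 D.tau_y).trans (by norm_num))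
    subst i2 i3 i4
    exact ⟨i1, u, hv⟩
  obtain ⟨y2e, y2⟩ : ε (fr3 0 0 1 0) = 1 ∧ ∃ u, σ (fr3 0 0 1 0) = fr3 0 0 1 u := by
    obtain ⟨e, a, b, u, hv⟩ := fr3_dec (σ (fr3 0 0 1 0))
    obtain ⟨i1, i2, i3, i4⟩ := uf' (a' := 0) (b' := 0) (c' := 1) (h1 _)
      ((hχ _ _ _ _ _ hv 7 D.tau_y').trans (by norm_num))
    subst i2 i3 i4
    exact ⟨i1, u, hv⟩
  have xx : ∀ v : Fin c.1 → ℤ, ε (fr3 0 0 0 v) = 1 ∧ ∃ u, σ (fr3 0 0 0 v) = fr3 0 0 0 u := by
    intro v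
    obtain ⟨e, a, b, u, hv⟩ := fr3_dec (σ (fr3 0 0 0 v))
    obtain ⟨i1, i2, i3, i4⟩ := uf' (a' := 0) (b' := 0) (c' := 0) (h1 _)
      ((hχ _ _ _ _ _ hv 1 (by rw [one_smul]; exact D.tau_x v)).trans (by norm_num))
    subst i2 i3 i4
    exact ⟨i1, u, hv⟩
  -- ρ
  have ρR : D'.thR (φ (gen 0)) ≠ 0 := by
    rcases nz _ ρ0 D.rho_z with h | h
    · exact h
    · exfalso
      obtain ⟨u, hv⟩ := y1
      have h5 := congrArg (fun m => D'.thT (φ m)) (D.rho_y 1 0)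
      simp only [x3] at h5
      rw [hT _ _ _ _ _ hv, y1e] at h5
      have h6 : ((1 : ℤ) : ℚ) * (2 ^ (0 : ℤ) * 5 ^ (1 : ℤ) * 7 ^ (0 : ℤ)) = 1 :=
        mul_right_cancel₀ h (h5.trans (one_mul _).symm)
      norm_num at h6
  have y1' : σ (fr3 0 1 0 0) = fr3 0 1 0 0 := by
    obtain ⟨u, hv⟩ := y1
    have h5 := congrArg (fun m => D'.thR (φ m)) (D.rho_y 1 0)
    simp only [x3] at h5
    rw [hR _ _ _ _ _ hv, y1e] at h5
    have h6 := mul_right_cancel₀ ρR (h5.trans (one_mul _).symm)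
    rw [AddMonoidAlgebra.one_def] at h6
    obtain ⟨h7, -⟩ := single_cases (by norm_num) h6
    rw [hv, h7]
  have y2' : σ (fr3 0 0 1 0) = fr3 0 0 1 0 := by
    obtain ⟨u, hv⟩ := y2
    have h5 := congrArg (fun m => D'.thR (φ m)) (D.rho_y 0 1)
    simp only [x3] at h5
    rw [hR _ _ _ _ _ hv, y2e] at h5
    have h6 := mul_right_cancel₀ ρR (h5.trans (one_mul _).symm)
    rw [AddMonoidAlgebra.one_def] at h6
    obtain ⟨h7, -⟩ := single_cases (by norm_num) h6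
    rw [hv, h7]
  choose s hs using fun v => (xx v).2
  have hdec : ∀ (e a b : ℤ) (v : Fin c.1 → ℤ), fr3 e a b v =
      e • fr3 1 0 0 0 + a • fr3 0 1 0 0 + b • fr3 0 0 1 0 + fr3 0 0 0 v := by
    intro e a b v
    rw [fr3_zsmul, fr3_zsmul, fr3_zsmul, fr3_add, fr3_add, fr3_add]
    simp
  have hdec' : ∀ (e a b : ℤ) (v : Fin c'.1 → ℤ), fr3 e a b v =
      e • fr3 1 0 0 0 + a • fr3 0 1 0 0 + b • fr3 0 0 1 0 + fr3 0 0 0 v := by
    intro e a b v
    rw [fr3_zsmul, fr3_zsmul, fr3_zsmul, fr3_add, fr3_add, fr3_add]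
    simp
  have hσ : ∀ (e a b : ℤ) (v : Fin c.1 → ℤ), σ (fr3 e a b v) = fr3 e a b (s v) := by
    intro e a b v
    rw [hdec, map_add, map_add, map_add, map_zsmul, map_zsmul, map_zsmul, hz.1, y1', y2', hs, ← hdec']
  have ε0 : ε 0 = 1 := by
    have := h2 0 0
    rw [add_zero] at this
    rcases h1 0 with h | h
    · exact h
    · rw [h] at this; norm_num at this
  let E : AddSubgroup (Fin (c.1 + 3) → ℤ) :=
    { carrier := {v | ε v = 1}
      zero_mem' := ε0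
      add_mem' := by
        intro v w hv hw
        show ε (v + w) = 1
        rw [h2, hv, hw, one_mul]
      neg_mem' := by
        intro v hv
        show ε (-v) = 1
        have := h2 v (-v)
        rw [add_neg_cancel, ε0, hv, one_mul] at this
        exact this.symm }
  have hE : ∀ (e a b : ℤ) (v : Fin c.1 → ℤ), ε (fr3 e a b v) = 1 := by
    intro e a b v
    have : fr3 e a b v ∈ E := by
      rw [hdec]
      exact add_mem (add_mem (add_mem (zsmul_mem (show fr3 1 0 0 0 ∈ E from hz.2) _)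
        (zsmul_mem (show fr3 0 1 0 0 ∈ E from y1e) _)) (zsmul_mem (show fr3 0 0 1 0 ∈ E from y2e) _))
        (xx v).1
    exact this
  -- the change of variables
  have s_add : ∀ v w, s (v + w) = s v + s w := by
    intro v w
    have : fr3 0 0 0 (v + w) = fr3 0 0 0 v + fr3 0 0 0 w := by
      rw [fr3_add]; simp
    have h5 := congrArg σ this
    rw [map_add, hs, hs, hs, fr3_add] at h5
    exact (fr3_inj h5).2.2.2
  have s_bij : Function.Bijective s := by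
    constructor
    · intro v w h
      have h5 : σ (fr3 0 0 0 v) = σ (fr3 0 0 0 w) := by rw [hs, hs, h]
      exact (fr3_inj (σ.injective h5)).2.2.2
    · intro u
      obtain ⟨w, hw⟩ := σ.surjective (fr3 0 0 0 u)
      obtain ⟨e, a, b, v, rfl⟩ := fr3_dec w
      rw [hσ] at hw
      exact ⟨v, (fr3_inj hw).2.2.2⟩
  let s' : (Fin c.1 → ℤ) ≃+ (Fin c'.1 → ℤ) := AddEquiv.ofBijective
    ({ toFun := s, map_zero' := by simpa using s_add 0 0, map_add' := s_add } : (Fin c.1 → ℤ) →+ (Fin c'.1 → ℤ)) s_bij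
  -- the map
  have hφ : ∀ (e a b : ℤ) (v : Fin c.1 → ℤ) (m : Mp c), φ (x3 e a b v • m) = x3 e a b (s v) • φ m := by
    intro e a b v m
    rw [x3, h3, hE, hσ, one_smul]
    rfl
  have fr00 : ∀ k : ℕ, (fr 0 0 (0 : Fin k → ℤ)) = 0 := by
    intro k
    funext i
    refine Fin.cases rfl (fun i => ?_) i
    refine Fin.cases rfl (fun i => ?_) i
    rfl
  have s0 : s 0 = 0 := by simpa using s_add 0 0
  have hψ : ∀ m, ∃ m', D'.ι m' = φ (D.ι m) := by
    intro m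
    apply D'.ker1
    have h5 := hφ 1 0 0 0 (D.ι m)
    rw [D.ι_smul, fr00, xp_zero, one_smul, s0] at h5
    exact h5.symm
  choose ψ hψ using hψ
  have ψ_add : ∀ m n, ψ (m + n) = ψ m + ψ n := by
    intro m n
    apply D'.inj
    rw [map_add, hψ, hψ, hψ, map_add, map_add]
  have ψ_bij : Function.Bijective ψ := by
    constructor
    · intro m n h
      apply D.inj
      apply φ.injective
      rw [← hψ, ← hψ, h]
    · intro m'
      obtain ⟨y, hy⟩ := φ.surjective (D'.ι m')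
      have h5 : x3 1 0 0 (0 : Fin c.1 → ℤ) • y = y := by
        apply φ.injective
        rw [hφ, s0, hy, D'.ι_smul, fr00, xp_zero, one_smul]
      obtain ⟨m, rfl⟩ := D.ker1 y h5
      exact ⟨m, D'.inj (by rw [hψ, hy])⟩
  let ψ' : PM (c.1 + 2) c.2.1 c.2.2 ≃+ PM (c'.1 + 2) c'.2.1 c'.2.2 := AddEquiv.ofBijective
    ({ toFun := ψ, map_zero' := by simpa using ψ_add 0 0, map_add' := ψ_add } :
      PM (c.1 + 2) c.2.1 c.2.2 →+ PM (c'.1 + 2) c'.2.1 c'.2.2) ψ_bij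
  refine ⟨s', ψ', fun a b v m => ?_⟩
  show ψ (xp (fr a b v) • m) = xp (fr a b (s v)) • ψ m
  apply D'.inj
  rw [hψ, ← D.ι_smul 0 a b v m, hφ, ← hψ, D'.ι_smul]

/-- PIN2 (from PIN0) -/
theorem pin2_of (pin0 : ∀ c : MCode, Nonempty (PinData c)) (p : MCode × MCode)
    (h : SignedIso (pin p.1, pin p.2)) : FrIso p := by
  obtain ⟨σ, ε, φ, h1, h2, h3⟩ := h
  obtain ⟨D⟩ := pin0 p.1
  obtain ⟨D'⟩ := pin0 p.2
  exact pin2_aux D D' σ ε φ h1 h2 h3

end Pool.Agent.MET
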